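import Pool.Agent.Lib.MP_74778d_co.Defs
import Pool.Agent.Lib.MP_74778d_co.Proof

namespace Pool.Agent.Results.MP_74778d_co.BalancedFR

open Pool.Agent.Lib.MP_74778d_co

/-- There is a finite simple graph with two distinct non-cospectral vertices `a`, `b` and a time
`τ > 0` at which balanced fractional revival occurs from `a` to `b`. -/
theorem result :
    ∃ (W : Type) (_ : Fintype W) (_ : DecidableEq W) (X : SimpleGraph W) (_ : DecidableRel X.Adj)
      (a b : W), a ≠ b ∧ ¬ Cospectral X a b ∧
      ∃ (τ : ℝ) (α β : ℂ), 0 < τ ∧ β ≠ 0 ∧ ‖α‖ = 1 / √2 ∧ ‖β‖ = 1 / √2 ∧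
        (transition X τ).mulVec (Pi.single a 1) =
          α • (Pi.single a 1 : W → ℂ) + β • (Pi.single b 1 : W → ℂ) :=
  ⟨V, inferInstance, inferInstance, G, inferInstance, Sum.inl true, Sum.inl false, by simp,
    not_cospectral, revival⟩

end Pool.Agent.Results.MP_74778d_co.BalancedFR
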